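import Pool.Agent.X187.CN.Cone

/-! Angles in the cone. -/

namespace Pool.Agent.X187.CN

open Set Filter Topology
open scoped InnerProductSpace

/-- comparison angle -/
noncomputable def cmpA (a b c : ℝ) : ℝ := Real.arccos ((a ^ 2 + b ^ 2 - c ^ 2) / (2 * a * b))

/-- the angle between `γ` and `η` is `α` -/
def HasAng (γ η : ℝ → Cone) (α : ℝ) : Prop :=
  Tendsto (fun p : ℝ × ℝ => cmpA p.1 p.2 (dist (γ p.1) (η p.2))) (𝓝[>] 0 ×ˢ 𝓝[>] 0) (𝓝 α)

lemma HasAng.unique {γ η : ℝ → Cone} {α β : ℝ} (h1 : HasAng γ η α) (h2 : HasAng γ η β) :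
    α = β := tendsto_nhds_unique h1 h2

lemma norm_sub_smul {v w : ℂ} (nv : ‖v‖ = 1) (nw : ‖w‖ = 1) (s t : ℝ) :
    ‖s • v - t • w‖ ^ 2 = s ^ 2 + t ^ 2 - 2 * s * t * ⟪v, w⟫_ℝ := by
  rw [norm_sub_sq_real, norm_smul, norm_smul, nv, nw, inner_smul_left, inner_smul_right]
  simp only [conj_trivial, Real.norm_eq_abs, mul_one, sq_abs]
  ring

lemma norm_add_smul {v w : ℂ} (nv : ‖v‖ = 1) (nw : ‖w‖ = 1) (s t : ℝ) :
    ‖s • v + t • w‖ ^ 2 = s ^ 2 + t ^ 2 + 2 * s * t * ⟪v, w⟫_ℝ := by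
  rw [norm_add_sq_real, norm_smul, norm_smul, nv, nw, inner_smul_left, inner_smul_right]
  simp only [conj_trivial, Real.norm_eq_abs, mul_one, sq_abs]
  ring

lemma cmpA_eq {v w : ℂ} (nv : ‖v‖ = 1) (nw : ‖w‖ = 1) {s t : ℝ} (hs : 0 < s) (ht : 0 < t) :
    cmpA s t ‖s • v - t • w‖ = Real.arccos ⟪v, w⟫_ℝ := by
  rw [cmpA, norm_sub_smul nv nw]
  congr 1
  field_simp
  ring

lemma cmpA_le {v w : ℂ} (nv : ‖v‖ = 1) (nw : ‖w‖ = 1) {a b c : ℝ} (ha : 0 < a) (hb : 0 < b)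
    (hc0 : 0 ≤ c) (hc : c ≤ ‖a • v - b • w‖) : cmpA a b c ≤ Real.arccos ⟪v, w⟫_ℝ := by
  rw [cmpA]
  refine Real.arccos_le_arccos ?_
  rw [le_div_iff₀ (by positivity)]
  have h1 : c ^ 2 ≤ ‖a • v - b • w‖ ^ 2 := by gcongr
  rw [norm_sub_smul nv nw] at h1
  linarith

lemma exists_short (p q : Cone) :
    ∃ γ : ℝ → Cone, γ 0 = p ∧ γ (dist p q) = q ∧ Short γ (dist p q) := by
  obtain ⟨x, rfl⟩ := mk_surj p
  obtain ⟨y, rfl, hxy⟩ := lift_near x q
  rcases eq_or_lt_of_le (dist_nonneg (x := mk x) (y := mk y)) with h0 | h0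
  · refine ⟨fun _ => mk x, rfl, dist_eq_zero.1 h0.symm, fun s hs t ht => ?_⟩
    rw [← h0] at hs ht
    have e1 : s = 0 := le_antisymm hs.2 hs.1
    have e2 : t = 0 := le_antisymm ht.2 ht.1
    rw [e1, e2]; simp
  set d := dist (mk x) (mk y) with hd
  have hg : ∀ s t : ℝ, ‖(x + (s / d) • (y - x)) - (x + (t / d) • (y - x))‖ = |s - t| := by
    intro s t
    have : (x + (s / d) • (y - x)) - (x + (t / d) • (y - x)) = ((s - t) / d) • (y - x) := by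
      rw [sub_div, sub_smul]; ring
    rw [this, norm_smul, norm_sub_rev, hxy, Real.norm_eq_abs, abs_div, abs_of_pos h0]
    field_simp
  have hle : ∀ s t : ℝ, dist (mk (x + (s / d) • (y - x))) (mk (x + (t / d) • (y - x))) ≤ |s - t| :=
    fun s t => (dist_le _ _).trans (hg s t).le
  have e0 : x + ((0 : ℝ) / d) • (y - x) = x := by rw [zero_div, zero_smul, add_zero]
  have e1 : x + ((d : ℝ) / d) • (y - x) = y := by rw [div_self h0.ne', one_smul]; ring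
  have key : ∀ s ∈ Icc 0 d, ∀ t ∈ Icc 0 d, s ≤ t →
      dist (mk (x + (s / d) • (y - x))) (mk (x + (t / d) • (y - x))) = |s - t| := by
    intro s hs t ht hst
    refine le_antisymm (hle s t) ?_
    have h1 := hle 0 s
    have h2 := hle t d
    rw [e0, zero_sub, abs_neg, abs_of_nonneg hs.1] at h1
    rw [e1, abs_of_nonpos (by linarith [ht.2])] at h2
    have h3 := dist_triangle4 (mk x) (mk (x + (s / d) • (y - x))) (mk (x + (t / d) • (y - x)))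
      (mk y)
    rw [← hd] at h3
    rw [abs_of_nonpos (by linarith)]
    linarith
  refine ⟨fun t => mk (x + (t / d) • (y - x)), by simp only [e0], by simp only [e1], ?_⟩
  intro s hs t ht
  rcases le_total s t with h | h
  · exact key s hs t ht h
  · change dist (mk _) (mk _) = _
    rw [dist_comm, abs_sub_comm]; exact key t ht s hs h

lemma ang_ne {x v w : ℂ} (hx : x ≠ 0) (nv : ‖v‖ = 1) (nw : ‖w‖ = 1) {γ η : ℝ → Cone} {a b : ℝ}
    (ha : 0 < a) (hb : 0 < b) (hγ : ∀ t ∈ Icc 0 a, γ t = mk (x + t • v))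
    (hη : ∀ t ∈ Icc 0 b, η t = mk (x + t • w)) : HasAng γ η (Real.arccos ⟪v, w⟫_ℝ) := by
  have hx' : 0 < ‖x‖ / 2 := by have := norm_pos_iff.2 hx; positivity
  refine tendsto_const_nhds.congr' ?_
  have h1 : Ioo (0 : ℝ) (min a (‖x‖ / 2)) ∈ 𝓝[>] (0 : ℝ) := Ioo_mem_nhdsGT (lt_min ha hx')
  have h2 : Ioo (0 : ℝ) (min b (‖x‖ / 2)) ∈ 𝓝[>] (0 : ℝ) := Ioo_mem_nhdsGT (lt_min hb hx')
  filter_upwards [prod_mem_prod h1 h2] with p hp
  obtain ⟨⟨hp1, hp2⟩, hp3, hp4⟩ := hp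
  obtain ⟨hp2, hp5⟩ := lt_min_iff.1 hp2
  obtain ⟨hp4, hp6⟩ := lt_min_iff.1 hp4
  rw [hγ _ ⟨hp1.le, hp2.le⟩, hη _ ⟨hp3.le, hp4.le⟩, dist_mk]
  have e1 : x + p.1 • v - (x + p.2 • w) = p.1 • v - p.2 • w := by ring
  rw [e1, min_eq_left, cmpA_eq nv nw hp1 hp3]
  have n1 : ‖p.1 • v‖ = p.1 := by rw [norm_smul, nv, mul_one, Real.norm_eq_abs, abs_of_pos hp1]
  have n2 : ‖p.2 • w‖ = p.2 := by rw [norm_smul, nw, mul_one, Real.norm_eq_abs, abs_of_pos hp3]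
  have h3 : ‖p.1 • v - p.2 • w‖ ≤ p.1 + p.2 := (norm_sub_le _ _).trans (by rw [n1, n2])
  have h4 : 2 * ‖x‖ ≤ ‖x + p.1 • v + (x + p.2 • w)‖ + (p.1 + p.2) := by
    have e2 : (2 : ℂ) * x = (x + p.1 • v + (x + p.2 • w)) - (p.1 • v + p.2 • w) := by ring
    have : 2 * ‖x‖ = ‖(2 : ℂ) * x‖ := by rw [norm_mul, Complex.norm_ofNat]
    rw [this, e2]
    refine (norm_sub_le _ _).trans (add_le_add le_rfl ?_)
    exact (norm_add_le _ _).trans (by rw [n1, n2])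
  linarith

lemma min_zero {v w : ℂ} (nv : ‖v‖ = 1) (nw : ‖w‖ = 1) {s t : ℝ} (hs : 0 < s) (ht : 0 < t) :
    cmpA s t (min ‖s • v - t • w‖ ‖s • v + t • w‖) = Real.arccos |⟪v, w⟫_ℝ| := by
  have h1 : (min ‖s • v - t • w‖ ‖s • v + t • w‖) ^ 2
      = s ^ 2 + t ^ 2 - 2 * s * t * |⟪v, w⟫_ℝ| := by
    rcases le_total 0 ⟪v, w⟫_ℝ with h | h
    · rw [abs_of_nonneg h, min_eq_left, norm_sub_smul nv nw]
      refine le_of_sq_le_sq ?_ (norm_nonneg _)
      rw [norm_sub_smul nv nw, norm_add_smul nv nw]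
      have : 0 ≤ 2 * s * t * ⟪v, w⟫_ℝ := by positivity
      linarith
    · rw [abs_of_nonpos h, min_eq_right, norm_add_smul nv nw]
      · ring
      refine le_of_sq_le_sq ?_ (norm_nonneg _)
      rw [norm_sub_smul nv nw, norm_add_smul nv nw]
      have : 0 ≤ 2 * s * t * (-⟪v, w⟫_ℝ) := by
        have : 0 ≤ -⟪v, w⟫_ℝ := by linarith
        positivity
      linarith
  rw [cmpA, h1]
  congr 1
  field_simp
  ring

lemma ang_zero {v w : ℂ} (nv : ‖v‖ = 1) (nw : ‖w‖ = 1) {γ η : ℝ → Cone} {a b : ℝ}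
    (ha : 0 < a) (hb : 0 < b) (hγ : ∀ t ∈ Icc 0 a, γ t = mk (0 + t • v))
    (hη : ∀ t ∈ Icc 0 b, η t = mk (0 + t • w)) : HasAng γ η (Real.arccos |⟪v, w⟫_ℝ|) := by
  refine tendsto_const_nhds.congr' ?_
  filter_upwards [prod_mem_prod (Ioo_mem_nhdsGT ha) (Ioo_mem_nhdsGT hb)] with p hp
  obtain ⟨⟨hp1, hp2⟩, hp3, hp4⟩ := hp
  rw [hγ _ ⟨hp1.le, hp2.le⟩, hη _ ⟨hp3.le, hp4.le⟩, dist_mk, zero_add, zero_add,
    min_zero nv nw hp1 hp3]

/-- angle comparison -/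
theorem angle_cmp {γ η : ℝ → Cone} {a b : ℝ} (ha : 0 < a) (hb : 0 < b) (hγ : Short γ a)
    (hη : Short η b) (h0 : γ 0 = η 0) :
    ∃ α, HasAng γ η α ∧ cmpA a b (dist (γ a) (η b)) ≤ α := by
  obtain ⟨x, hx⟩ := mk_surj (γ 0)
  obtain ⟨v, nv, hv⟩ := lift_path ha hγ hx
  obtain ⟨w, nw, hw⟩ := lift_path hb hη (hx.trans h0)
  by_cases hx0 : x = 0
  · subst hx0
    refine ⟨_, ang_zero nv nw ha hb hv hw, ?_⟩
    rw [hv a ⟨ha.le, le_rfl⟩, hw b ⟨hb.le, le_rfl⟩, dist_mk, zero_add, zero_add,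
      min_zero nv nw ha hb]
  · refine ⟨_, ang_ne hx0 nv nw ha hb hv hw, ?_⟩
    refine cmpA_le nv nw ha hb dist_nonneg ?_
    rw [hv a ⟨ha.le, le_rfl⟩, hw b ⟨hb.le, le_rfl⟩]
    refine (dist_le _ _).trans (le_of_eq ?_)
    congr 1; ring

/-- adjacent angles -/
theorem adj {γ η : ℝ → Cone} {a b t : ℝ} (ht : 0 < t) (hta : t < a) (hb : 0 < b)
    (hγ : Short γ a) (hη : Short η b) (h0 : η 0 = γ t) {α β : ℝ}
    (hα : HasAng (fun s => γ (t + s)) η α) (hβ : HasAng (fun s => γ (t - s)) η β) :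
    α + β = Real.pi := by
  have ha : 0 < a := ht.trans hta
  obtain ⟨x, hx⟩ := mk_surj (γ 0)
  obtain ⟨v, nv, hv⟩ := lift_path ha hγ hx
  have hy0 : x + t • v ≠ 0 := by
    intro hy
    set e := min t (a - t) with he
    have he0 : 0 < e := lt_min ht (by linarith)
    have he1 : e ≤ t := min_le_left _ _
    have he2 : e ≤ a - t := min_le_right _ _
    have m1 : t - e ∈ Icc 0 a := ⟨by linarith, by linarith⟩
    have m2 : t + e ∈ Icc 0 a := ⟨by linarith, by linarith⟩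
    have h1 := hγ _ m1 _ m2
    rw [hv _ m1, hv _ m2, dist_mk] at h1
    have h2 : x + (t - e) • v + (x + (t + e) • v) = 0 := by
      have : x + (t - e) • v + (x + (t + e) • v) = (x + t • v) + (x + t • v) := by
        rw [sub_smul, add_smul]; ring
      rw [this, hy, add_zero]
    rw [h2, norm_zero, min_eq_right (norm_nonneg _)] at h1
    have h3 : t - e - (t + e) = -(2 * e) := by ring
    rw [h3, abs_neg, abs_of_pos (by linarith)] at h1
    linarith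
  have hty : mk (x + t • v) = η 0 := by rw [h0, hv t ⟨ht.le, hta.le⟩]
  obtain ⟨w, nw, hw⟩ := lift_path hb hη hty
  have g1 : HasAng (fun s => γ (t + s)) η (Real.arccos ⟪v, w⟫_ℝ) := by
    refine ang_ne hy0 nv nw (a := a - t) (by linarith) hb (fun s hs => ?_) hw
    have := hv (t + s) ⟨by linarith [hs.1], by linarith [hs.2]⟩
    rw [this, add_smul]; congr 1; ring
  have g2 : HasAng (fun s => γ (t - s)) η (Real.arccos ⟪-v, w⟫_ℝ) := by
    refine ang_ne hy0 (by rw [norm_neg]; exact nv) nw (a := t) ht hb (fun s hs => ?_) hw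
    have := hv (t - s) ⟨by linarith [hs.2], by linarith [hs.1]⟩
    rw [this, sub_smul, smul_neg]; congr 1; ring
  rw [hα.unique g1, hβ.unique g2, inner_neg_left, Real.arccos_neg]
  ring

end Pool.Agent.X187.CN
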