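import Mathlib

/-! The cone `ℂ / {±1}` over a circle of length `π`. -/

namespace Pool.Agent.X187.CN

open Set Filter Topology
open scoped InnerProductSpace

/-- `x ~ ± x` -/
instance pm : Setoid ℂ where
  r x y := x = y ∨ x = -y
  iseqv := ⟨fun x => Or.inl rfl, fun h => by
      rcases h with h | h
      · exact Or.inl h.symm
      · exact Or.inr (by rw [h, neg_neg]), fun h1 h2 => by
      rcases h1 with rfl | rfl
      · exact h2
      · rcases h2 with rfl | rfl
        · exact Or.inr rfl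
        · exact Or.inl (by rw [neg_neg])⟩

/-- the cone -/
def Cone : Type := Quotient pm

/-- the projection -/
def mk (x : ℂ) : Cone := Quotient.mk pm x

lemma mk_neg (x : ℂ) : mk (-x) = mk x := Quotient.sound (Or.inr rfl)

lemma mk_eq {x y : ℂ} : mk x = mk y ↔ x = y ∨ x = -y := Quotient.eq

lemma mk_surj (p : Cone) : ∃ x, mk x = p := Quotient.exists_rep p

/-- the distance -/
noncomputable def cd : Cone → Cone → ℝ :=
  Quotient.lift₂ (fun x y : ℂ => min ‖x - y‖ ‖x + y‖) (by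
    rintro a b c d (rfl | rfl) (rfl | rfl)
    · rfl
    · simp only [sub_neg_eq_add]
      rw [← sub_eq_add_neg, min_comm]
    · have h1 : ‖-c - b‖ = ‖c + b‖ := by rw [← norm_neg]; ring_nf
      have h2 : ‖-c + b‖ = ‖c - b‖ := by rw [← norm_neg]; ring_nf
      simp only [h1, h2]; rw [min_comm]
    · have h1 : ‖-c - -d‖ = ‖c - d‖ := by rw [← norm_neg]; ring_nf
      have h2 : ‖-c + -d‖ = ‖c + d‖ := by rw [← norm_neg]; ring_nf
      simp only [h1, h2])

noncomputable instance : MetricSpace Cone where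
  dist := cd
  dist_self p := by
    obtain ⟨x, rfl⟩ := mk_surj p
    change min ‖x - x‖ ‖x + x‖ = 0
    simp
  dist_comm p q := by
    obtain ⟨x, rfl⟩ := mk_surj p
    obtain ⟨y, rfl⟩ := mk_surj q
    change min ‖x - y‖ ‖x + y‖ = min ‖y - x‖ ‖y + x‖
    rw [norm_sub_rev, add_comm]
  dist_triangle p q r := by
    obtain ⟨x, rfl⟩ := mk_surj p
    obtain ⟨y, rfl⟩ := mk_surj q
    obtain ⟨z, rfl⟩ := mk_surj r
    change min ‖x - z‖ ‖x + z‖ ≤ min ‖x - y‖ ‖x + y‖ + min ‖y - z‖ ‖y + z‖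
    rcases min_cases ‖x - y‖ ‖x + y‖ with ⟨h1, -⟩ | ⟨h1, -⟩ <;>
      rcases min_cases ‖y - z‖ ‖y + z‖ with ⟨h2, -⟩ | ⟨h2, -⟩ <;> rw [h1, h2]
    · exact (min_le_left _ _).trans ((by ring_nf : x - z = (x - y) + (y - z)) ▸ norm_add_le _ _)
    · exact (min_le_right _ _).trans ((by ring_nf : x + z = (x - y) + (y + z)) ▸ norm_add_le _ _)
    · exact (min_le_right _ _).trans
        (((by ring_nf : x + z = (x + y) - (y - z)) ▸ norm_sub_le _ _))
    · exact (min_le_left _ _).trans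
        (((by ring_nf : x - z = (x + y) - (y + z)) ▸ norm_sub_le _ _))
  eq_of_dist_eq_zero := by
    intro p q h
    obtain ⟨x, rfl⟩ := mk_surj p
    obtain ⟨y, rfl⟩ := mk_surj q
    change min ‖x - y‖ ‖x + y‖ = 0 at h
    rw [mk_eq]
    rcases min_cases ‖x - y‖ ‖x + y‖ with ⟨h1, -⟩ | ⟨h1, -⟩
    · left; rw [h1] at h; exact sub_eq_zero.1 (norm_eq_zero.1 h)
    · right; rw [h1] at h; exact eq_neg_of_add_eq_zero_left (norm_eq_zero.1 h)

lemma dist_mk (x y : ℂ) : dist (mk x) (mk y) = min ‖x - y‖ ‖x + y‖ := rfl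

lemma dist_le (x y : ℂ) : dist (mk x) (mk y) ≤ ‖x - y‖ := min_le_left _ _

lemma dist_zero (x : ℂ) : dist (mk 0) (mk x) = ‖x‖ := by
  rw [dist_mk, zero_sub, zero_add, norm_neg, min_self]

lemma lift_near (x : ℂ) (p : Cone) : ∃ y, mk y = p ∧ ‖x - y‖ = dist (mk x) p := by
  obtain ⟨y, rfl⟩ := mk_surj p
  rcases min_cases ‖x - y‖ ‖x + y‖ with ⟨h1, -⟩ | ⟨h1, -⟩
  · exact ⟨y, rfl, h1.symm⟩
  · exact ⟨-y, mk_neg y, by rw [dist_mk, h1, sub_neg_eq_add]⟩

lemma continuous_mk : Continuous mk := by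
  have : LipschitzWith 1 mk := LipschitzWith.of_dist_le_mul fun x y => by
    rw [NNReal.coe_one, one_mul, dist_eq_norm]; exact dist_le x y
  exact this.continuous

lemma closedBall_zero (r : ℝ) : Metric.closedBall (mk 0) r = mk '' Metric.closedBall 0 r := by
  ext p
  obtain ⟨x, rfl⟩ := mk_surj p
  constructor
  · intro h
    refine ⟨x, ?_, rfl⟩
    rw [Metric.mem_closedBall, dist_comm, dist_zero] at h
    rwa [mem_closedBall_zero_iff]
  · rintro ⟨y, hy, hxy⟩
    rw [← hxy, Metric.mem_closedBall, dist_comm, dist_zero]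
    rwa [mem_closedBall_zero_iff] at hy

instance : ProperSpace Cone := ⟨fun p r => by
  obtain ⟨x, rfl⟩ := mk_surj p
  have h1 : IsCompact (Metric.closedBall (mk 0) (r + ‖x‖)) := by
    rw [closedBall_zero]
    exact (isCompact_closedBall _ _).image continuous_mk
  refine h1.of_isClosed_subset Metric.isClosed_closedBall ?_
  refine Metric.closedBall_subset_closedBall' ?_
  rw [dist_comm, dist_zero]⟩

/-! ### the homeomorphism with the plane -/

/-- `[x] ↦ x²` -/
def sq : Cone → ℂ := Quotient.lift (fun x : ℂ => x ^ 2) (by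
  rintro a b (rfl | rfl)
  · rfl
  · simp)

lemma sq_mk (x : ℂ) : sq (mk x) = x ^ 2 := rfl

lemma norm_sq_sub (x y : ℂ) : ‖x ^ 2 - y ^ 2‖ = ‖x - y‖ * ‖x + y‖ := by
  rw [← norm_mul]; congr 1; ring

lemma sq_bij : Function.Bijective sq := by
  constructor
  · intro p q h
    obtain ⟨x, rfl⟩ := mk_surj p
    obtain ⟨y, rfl⟩ := mk_surj q
    rw [sq_mk, sq_mk] at h
    exact mk_eq.2 (sq_eq_sq_iff_eq_or_eq_neg.1 h)
  · intro z
    obtain ⟨x, hx⟩ := IsAlgClosed.exists_pow_nat_eq z (n := 2) two_pos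
    exact ⟨mk x, hx⟩

lemma dist_sq_le (p q : Cone) : dist p q ^ 2 ≤ ‖sq p - sq q‖ := by
  obtain ⟨x, rfl⟩ := mk_surj p
  obtain ⟨y, rfl⟩ := mk_surj q
  rw [sq_mk, sq_mk, norm_sq_sub, dist_mk, pow_two]
  exact mul_le_mul (min_le_left _ _) (min_le_right _ _)
    (le_min (norm_nonneg _) (norm_nonneg _)) (norm_nonneg _)

lemma sq_dist_le (p q : Cone) : ‖sq p - sq q‖ ≤ dist p q * (dist p q + 2 * dist (mk 0) p) := by
  obtain ⟨x, rfl⟩ := mk_surj p
  obtain ⟨y, hy, hd⟩ := lift_near x q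
  rw [← hd, ← hy, sq_mk, sq_mk, norm_sq_sub, dist_zero]
  refine mul_le_mul_of_nonneg_left ?_ (norm_nonneg _)
  have : x + y = 2 * x - (x - y) := by ring
  rw [this]
  refine (norm_sub_le _ _).trans ?_
  rw [norm_mul, Complex.norm_ofNat]
  linarith

lemma sq_cont : Continuous sq := by
  rw [continuous_iff_continuousAt]
  intro p
  rw [ContinuousAt, tendsto_iff_dist_tendsto_zero]
  have h1 : Tendsto (fun q : Cone => dist p q) (𝓝 p) (𝓝 0) := by
    have : Continuous fun q : Cone => dist p q := continuous_const.dist continuous_id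
    simpa using this.tendsto p
  have h2 : Tendsto (fun q : Cone => dist p q * (dist p q + 2 * dist (mk 0) p)) (𝓝 p) (𝓝 0) := by
    simpa using h1.mul (h1.add_const (2 * dist (mk 0) p))
  refine squeeze_zero (fun _ => dist_nonneg) (fun q => ?_) h2
  rw [dist_comm, dist_eq_norm]
  exact sq_dist_le p q

/-- the homeomorphism -/
noncomputable def hom : Cone ≃ₜ ℂ where
  toEquiv := Equiv.ofBijective sq sq_bij
  continuous_toFun := sq_cont
  continuous_invFun := by
    rw [continuous_iff_continuousAt]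
    intro z
    rw [ContinuousAt, tendsto_iff_dist_tendsto_zero]
    have h1 : Tendsto (fun w : ℂ => √(‖w - z‖)) (𝓝 z) (𝓝 0) := by
      have : Continuous fun w : ℂ => √(‖w - z‖) := by fun_prop
      simpa using this.tendsto z
    refine squeeze_zero (fun _ => dist_nonneg) (fun w => ?_) h1
    refine Real.le_sqrt_of_sq_le ?_
    have := dist_sq_le ((Equiv.ofBijective sq sq_bij).symm w) ((Equiv.ofBijective sq sq_bij).symm z)
    have e1 : ∀ w, sq ((Equiv.ofBijective sq sq_bij).symm w) = w := fun w =>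
      (Equiv.ofBijective sq sq_bij).apply_symm_apply w
    rwa [e1, e1] at this

lemma hom_mk (x : ℂ) : hom (mk x) = x ^ 2 := rfl

/-! ### shortest paths -/

/-- `γ` restricted to `[0,a]` is a shortest path with unit speed -/
def Short (γ : ℝ → Cone) (a : ℝ) : Prop :=
  ∀ s ∈ Icc 0 a, ∀ t ∈ Icc 0 a, dist (γ s) (γ t) = |s - t|

lemma on_seg {x y z : ℂ} {a t : ℝ} (ha : 0 < a) (h1 : ‖x - z‖ = t) (h2 : ‖z - y‖ = a - t)
    (h3 : ‖x - y‖ = a) : z = x + t • ((1 / a) • (y - x)) := by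
  have e1 : ‖z - y‖ ^ 2 = ‖z - x‖ ^ 2 - 2 * ⟪z - x, y - x⟫_ℝ + ‖y - x‖ ^ 2 := by
    rw [← norm_sub_sq_real]; congr 2; ring
  have h1' : ‖z - x‖ = t := by rw [norm_sub_rev]; exact h1
  have h3' : ‖y - x‖ = a := by rw [norm_sub_rev]; exact h3
  rw [h2, h1', h3'] at e1
  have e2 : ⟪z - x, y - x⟫_ℝ = a * t := by nlinarith
  have e3 : ‖a • (z - x) - t • (y - x)‖ ^ 2 = 0 := by
    rw [norm_sub_sq_real, norm_smul, norm_smul, inner_smul_left, inner_smul_right, e2, h1', h3']
    simp only [conj_trivial, Real.norm_eq_abs, mul_pow, sq_abs]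
    ring
  have e4 : a • (z - x) - t • (y - x) = 0 := by
    rw [← norm_eq_zero]; exact pow_eq_zero_iff (two_ne_zero) |>.1 e3
  have e5 : z - x = t • ((1 / a) • (y - x)) := by
    have : (1 / a) • (a • (z - x)) = (1 / a) • (t • (y - x)) := by rw [sub_eq_zero.1 e4]
    rw [smul_smul, one_div, inv_mul_cancel₀ ha.ne', one_smul] at this
    rw [this, smul_comm, one_div]
  rw [← e5]; ring

lemma inner_eq_one {v w : ℂ} (hv : ‖v‖ = 1) (hw : ‖w‖ = 1) (h : ⟪v, w⟫_ℝ = 1) : v = w := by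
  have : ‖v - w‖ ^ 2 = 0 := by rw [norm_sub_sq_real, hv, hw, h]; norm_num
  exact sub_eq_zero.1 (norm_eq_zero.1 (pow_eq_zero_iff (two_ne_zero) |>.1 this))

lemma e_minus {v v' : ℂ} (nv' : ‖v'‖ = 1) (nv : ‖v‖ = 1) {s t : ℝ}
    (h : ‖s • v' - t • v‖ = |s - t|) (h6 : 0 < s * t) : v' = v := by
  have e1 : ‖s • v' - t • v‖ ^ 2 = (s - t) ^ 2 := by rw [← sq_abs (s - t), ← h]
  rw [norm_sub_sq_real, norm_smul, norm_smul, nv, nv', inner_smul_left, inner_smul_right] at e1
  simp only [conj_trivial, Real.norm_eq_abs, mul_one, sq_abs] at e1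
  refine inner_eq_one nv' nv ?_
  have : s * t * (⟪v', v⟫_ℝ - 1) = 0 := by nlinarith
  rcases mul_eq_zero.1 this with h7 | h7
  · exact absurd h7 h6.ne'
  · linarith

lemma e_plus {v v' : ℂ} (nv' : ‖v'‖ = 1) (nv : ‖v‖ = 1) {s t : ℝ}
    (h : ‖s • v' + t • v‖ = |s - t|) (h6 : 0 < s * t) : -v' = v := by
  refine e_minus (by rw [norm_neg]; exact nv') nv (s := s) (t := t) ?_ h6
  rw [← h, ← norm_neg]; congr 1; rw [smul_neg]; ring

lemma lift_path {γ : ℝ → Cone} {a : ℝ} (ha : 0 < a) (h : Short γ a) {x : ℂ}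
    (hx : mk x = γ 0) : ∃ v : ℂ, ‖v‖ = 1 ∧ ∀ t ∈ Icc 0 a, γ t = mk (x + t • v) := by
  have h0 : (0 : ℝ) ∈ Icc 0 a := ⟨le_rfl, ha.le⟩
  have ha' : a ∈ Icc 0 a := ⟨ha.le, le_rfl⟩
  obtain ⟨y, hy, hxy⟩ := lift_near x (γ a)
  rw [hx, h 0 h0 a ha', zero_sub, abs_neg, abs_of_pos ha] at hxy
  have hmin : a ≤ ‖x + y‖ := by
    have h1 := h 0 h0 a ha'
    rw [← hx, ← hy, dist_mk, zero_sub, abs_neg, abs_of_pos ha] at h1
    rw [← h1]; exact min_le_right _ _
  have hyv : x + a • ((1 / a) • (y - x)) = y := by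
    rw [smul_smul, mul_one_div, div_self ha.ne', one_smul]; ring
  by_cases hB : ∃ s ∈ Ioo 0 a, ∃ z, mk z = γ s ∧ ‖x - z‖ = s ∧ ‖z + y‖ = a - s
  · obtain ⟨s, hs, z, hz, hz1, hz2⟩ := hB
    have hxy' : ‖x - -y‖ = a := by
      refine le_antisymm ?_ (by rw [sub_neg_eq_add]; exact hmin)
      have : x - -y = (x - z) + (z + y) := by ring
      rw [this]; exact (norm_add_le _ _).trans (by rw [hz1, hz2]; linarith)
    set v' : ℂ := (1 / a) • (-y - x) with hv'
    set v : ℂ := (1 / a) • (y - x) with hv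
    have nv' : ‖v'‖ = 1 := by
      rw [hv', norm_smul, Real.norm_eq_abs, abs_of_pos (by positivity), norm_sub_rev, hxy']
      field_simp
    have nv : ‖v‖ = 1 := by
      rw [hv, norm_smul, Real.norm_eq_abs, abs_of_pos (by positivity), norm_sub_rev, hxy]
      field_simp
    have hyv' : x + a • v' = -y := by
      rw [hv', smul_smul, mul_one_div, div_self ha.ne', one_smul]; ring
    have hzs : z = x + s • v' := on_seg ha hz1 (by rw [sub_neg_eq_add]; exact hz2) hxy'
    have h2x : x + x = -(a • v + a • v') := by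
      have e1 := hyv
      have e2 := hyv'
      have : (x + a • v) + (x + a • v') = 0 := by rw [e1, e2]; ring
      have e3 : x + x + (a • v + a • v') = 0 := by rw [← this]; ring
      exact eq_neg_of_add_eq_zero_left e3
    refine ⟨v', nv', fun t ht => ?_⟩
    rcases eq_or_lt_of_le ht.1 with h1 | h1
    · rw [← h1, zero_smul, add_zero, hx]
    rcases eq_or_lt_of_le ht.2 with h2 | h2
    · rw [h2, hyv', mk_neg, hy]
    obtain ⟨w, hw, hw1⟩ := lift_near x (γ t)
    rw [hx, h 0 h0 t ht, zero_sub, abs_neg, abs_of_pos h1] at hw1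
    have hw2 := h t ht a ha'
    rw [← hw, ← hy, dist_mk, abs_of_neg (by linarith)] at hw2
    rcases min_cases ‖w - y‖ ‖w + y‖ with ⟨h3, -⟩ | ⟨h3, -⟩
    · rw [h3] at hw2
      have hwt : w = x + t • v := on_seg ha hw1 (by linarith) hxy
      have h4 := h s ⟨hs.1.le, hs.2.le⟩ t ht
      rw [← hz, ← hw, hzs, hwt, dist_mk] at h4
      rcases min_cases ‖x + s • v' - (x + t • v)‖ ‖x + s • v' + (x + t • v)‖ with
        ⟨h5, -⟩ | ⟨h5, -⟩
      · rw [h5] at h4
        have h7 : v' = v := by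
          refine e_minus nv' nv (s := s) (t := t) ?_ (mul_pos hs.1 h1)
          rw [← h4]; congr 1; ring
        rw [← hw, hwt, h7]
      · rw [h5] at h4
        have e0 : x + s • v' + (x + t • v) = -((a - s) • v' + (a - t) • v) := by
          have : x + s • v' + (x + t • v) = (x + x) + (s • v' + t • v) := by ring
          rw [this, h2x, sub_smul, sub_smul]; ring
        have e3 : -v' = v := by
          refine e_plus nv' nv (s := a - s) (t := a - t) ?_
            (mul_pos (by linarith [hs.2]) (by linarith))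
          rw [e0, norm_neg] at h4
          rw [h4, abs_sub_comm]; congr 1; ring
        have e4 : x = 0 := by
          have : x + x = 0 := by
            rw [h2x, ← e3, smul_neg]; ring
          have h8 : (2 : ℂ) * x = 0 := by rw [two_mul]; exact this
          exact (mul_eq_zero.1 h8).resolve_left two_ne_zero
        rw [← hw, hwt, e4, ← e3, smul_neg, zero_add, zero_add, mk_neg]
    · rw [h3] at hw2
      have hwt : w = x + t • v' := on_seg ha hw1 (by rw [sub_neg_eq_add]; linarith) hxy'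
      rw [← hw, hwt]
  · push Not at hB
    refine ⟨(1 / a) • (y - x), ?_, fun t ht => ?_⟩
    · rw [norm_smul, Real.norm_eq_abs, abs_of_pos (by positivity), norm_sub_rev, hxy]
      field_simp
    rcases eq_or_lt_of_le ht.1 with h1 | h1
    · rw [← h1, zero_smul, add_zero, hx]
    rcases eq_or_lt_of_le ht.2 with h2 | h2
    · rw [h2, hyv, hy]
    obtain ⟨w, hw, hw1⟩ := lift_near x (γ t)
    rw [hx, h 0 h0 t ht, zero_sub, abs_neg, abs_of_pos h1] at hw1
    have hw2 := h t ht a ha'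
    rw [← hw, ← hy, dist_mk, abs_of_neg (by linarith)] at hw2
    rcases min_cases ‖w - y‖ ‖w + y‖ with ⟨h3, -⟩ | ⟨h3, -⟩
    · rw [h3] at hw2
      rw [← hw, on_seg ha hw1 (by linarith) hxy]
    · rw [h3] at hw2
      exact absurd (by linarith) (hB t ⟨h1, h2⟩ w hw hw1)

end Pool.Agent.X187.CN
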