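import Pool.Agent.X187.CN.Ang

/-! The unit disk of the cone. -/

namespace Pool.Agent.X187.CN

open Set Filter Topology
open scoped InnerProductSpace

/-- point of the unit circle -/
noncomputable def u (τ : ℝ) : ℂ := ⟨Real.cos τ, Real.sin τ⟩

/-- minus the normal -/
noncomputable def nn (m : ℝ) : ℂ := ⟨Real.sin m, -Real.cos m⟩

lemma norm_u (τ : ℝ) : ‖u τ‖ = 1 := by
  have h : ‖u τ‖ ^ 2 = 1 ^ 2 := by
    rw [← Complex.normSq_eq_norm_sq, Complex.normSq_apply, u]
    have := Real.sin_sq_add_cos_sq τ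
    simp only; nlinarith
  exact (sq_eq_sq₀ (norm_nonneg _) zero_le_one).1 h

lemma norm_nn (τ : ℝ) : ‖nn τ‖ = 1 := by
  have h : ‖nn τ‖ ^ 2 = 1 ^ 2 := by
    rw [← Complex.normSq_eq_norm_sq, Complex.normSq_apply, nn]
    have := Real.sin_sq_add_cos_sq τ
    simp only; nlinarith
  exact (sq_eq_sq₀ (norm_nonneg _) zero_le_one).1 h

lemma inner_mk (a b c d : ℝ) : ⟪(⟨a, b⟩ : ℂ), ⟨c, d⟩⟫_ℝ = a * c + b * d := by
  simp [Complex.inner]
  ring

lemma u_sub (r s : ℝ) : u r - u s = (2 * Real.sin ((s - r) / 2)) • nn ((r + s) / 2) := by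
  apply Complex.ext
  · simp only [u, nn, Complex.sub_re, Complex.real_smul, Complex.mul_re, Complex.ofReal_re,
      Complex.ofReal_im]
    rw [Real.cos_sub_cos, show (r - s) / 2 = -((s - r) / 2) by ring, Real.sin_neg]
    ring
  · simp only [u, nn, Complex.sub_im, Complex.real_smul, Complex.mul_im, Complex.ofReal_re,
      Complex.ofReal_im]
    rw [Real.sin_sub_sin, show (r - s) / 2 = -((s - r) / 2) by ring, Real.sin_neg]
    ring

lemma u_add (r s : ℝ) : u r + u s = (2 * Real.cos ((s - r) / 2)) • u ((r + s) / 2) := by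
  apply Complex.ext
  · simp only [u, Complex.add_re, Complex.real_smul, Complex.mul_re, Complex.ofReal_re,
      Complex.ofReal_im]
    rw [Real.cos_add_cos, show (r - s) / 2 = -((s - r) / 2) by ring, Real.cos_neg]
    ring
  · simp only [u, Complex.add_im, Complex.real_smul, Complex.mul_im, Complex.ofReal_re,
      Complex.ofReal_im]
    rw [Real.sin_add_sin, show (r - s) / 2 = -((s - r) / 2) by ring, Real.cos_neg]
    ring

lemma norm_u_sub (r s : ℝ) : ‖u r - u s‖ = 2 * |Real.sin ((s - r) / 2)| := by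
  rw [u_sub, norm_smul, norm_nn, mul_one, Real.norm_eq_abs, abs_mul, abs_two]

lemma norm_u_add (r s : ℝ) : ‖u r + u s‖ = 2 * |Real.cos ((s - r) / 2)| := by
  rw [u_add, norm_smul, norm_u, mul_one, Real.norm_eq_abs, abs_mul, abs_two]

/-- the boundary curve -/
noncomputable def g (τ : ℝ) : Cone := mk (u τ)

lemma dist_g {r s : ℝ} (h : |s - r| ≤ 1) : dist (g r) (g s) = 2 * |Real.sin ((s - r) / 2)| := by
  rw [g, g, dist_mk, norm_u_sub, norm_u_add, min_eq_left]
  obtain ⟨h1, h2⟩ := abs_le.1 h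
  have h3 : |Real.sin ((s - r) / 2)| ≤ 1 / 2 := by
    refine (Real.abs_sin_le_abs).trans ?_
    rw [abs_le]; constructor <;> linarith
  have h4 : 1 / 2 ≤ Real.cos ((s - r) / 2) := by
    have := Real.one_sub_sq_div_two_le_cos (x := (s - r) / 2)
    nlinarith
  have h5 := le_abs_self (Real.cos ((s - r) / 2))
  linarith

lemma dist_g_le (r s : ℝ) : dist (g r) (g s) ≤ |r - s| := by
  refine (dist_le _ _).trans ?_
  rw [norm_u_sub]
  have := Real.abs_sin_le_abs (x := (s - r) / 2)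
  rw [abs_div, abs_two] at this
  rw [abs_sub_comm r s]
  linarith

lemma g_cont : Continuous g := by
  have : LipschitzWith 1 g := LipschitzWith.of_dist_le_mul fun x y => by
    rw [NNReal.coe_one, one_mul, Real.dist_eq]; exact dist_g_le x y
  exact this.continuous

lemma g_period : Function.Periodic g Real.pi := by
  intro τ
  rw [g, g, ← mk_neg (u τ)]
  congr 1
  apply Complex.ext
  · simp [u, Real.cos_add_pi]
  · simp [u, Real.sin_add_pi]

lemma g_inj : InjOn g (Ico 0 Real.pi) := by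
  intro r hr s hs h
  have h1 : |s - r| / 2 < Real.pi / 2 := by
    have : |s - r| < Real.pi := by rw [abs_lt]; constructor <;> linarith [hr.1, hr.2, hs.1, hs.2]
    linarith
  have hlt : |(s - r) / 2| < Real.pi / 2 := by rwa [abs_div, abs_two]
  rcases mk_eq.1 h with h2 | h2
  · have h3 := norm_u_sub r s
    rw [h2, sub_self, norm_zero] at h3
    have h4 : Real.sin ((s - r) / 2) = 0 := by
      rw [← abs_eq_zero]; linarith
    have h5 := (Real.sin_eq_zero_iff_of_lt_of_lt (by linarith [(abs_lt.1 hlt).1, Real.pi_pos])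
      (by linarith [(abs_lt.1 hlt).2, Real.pi_pos])).1 h4
    linarith
  · have h3 := norm_u_add r s
    rw [h2, neg_add_cancel, norm_zero] at h3
    have h4 : Real.cos ((s - r) / 2) = 0 := by
      rw [← abs_eq_zero]; linarith
    have h5 := Real.cos_pos_of_mem_Ioo (abs_lt.1 hlt)
    linarith

/-! ### the disk -/

/-- the disk -/
def D : Set Cone := Metric.closedBall (mk 0) 1

lemma mem_D {x : ℂ} : mk x ∈ D ↔ ‖x‖ ≤ 1 := by
  rw [D, Metric.mem_closedBall, dist_comm, dist_zero]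

lemma hom_image : hom '' D = Metric.closedBall 0 1 := by
  ext z
  constructor
  · rintro ⟨p, hp, rfl⟩
    obtain ⟨x, rfl⟩ := mk_surj p
    rw [mem_closedBall_zero_iff, hom_mk, norm_pow]
    exact pow_le_one₀ (norm_nonneg _) (mem_D.1 hp)
  · intro hz
    obtain ⟨p, rfl⟩ := hom.surjective z
    obtain ⟨x, rfl⟩ := mk_surj p
    rw [mem_closedBall_zero_iff, hom_mk, norm_pow] at hz
    exact ⟨mk x, mem_D.2 (by nlinarith [norm_nonneg x]), rfl⟩

lemma frontier_image : hom '' frontier D = Metric.sphere 0 1 := by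
  rw [hom.image_frontier, hom_image, frontier_closedBall _ one_ne_zero]

lemma interior_image : hom '' interior D = Metric.ball 0 1 := by
  rw [hom.image_interior, hom_image, interior_closedBall _ one_ne_zero]

lemma mem_frontier {x : ℂ} : mk x ∈ frontier D ↔ ‖x‖ = 1 := by
  rw [← hom.injective.mem_set_image, frontier_image, mem_sphere_zero_iff_norm, hom_mk, norm_pow]
  constructor
  · intro h
    exact (pow_eq_one_iff_of_nonneg (norm_nonneg _) two_ne_zero).1 h
  · intro h; rw [h, one_pow]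

lemma disk_top : IsClosed D ∧ Nonempty (frontier D ≃ₜ Metric.sphere (0 : ℂ) 1) ∧
    Nonempty (interior D ≃ₜ Metric.ball (0 : ℂ) 1) :=
  ⟨Metric.isClosed_closedBall,
    ⟨(hom.image (frontier D)).trans (Homeomorph.setCongr frontier_image)⟩,
    ⟨(hom.image (interior D)).trans (Homeomorph.setCongr interior_image)⟩⟩

lemma g_range : range g = frontier D := by
  ext p
  obtain ⟨x, rfl⟩ := mk_surj p
  rw [mem_frontier]
  constructor
  · rintro ⟨τ, hτ⟩
    rcases mk_eq.1 hτ with h | h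
    · rw [← h, norm_u]
    · rw [← neg_eq_iff_eq_neg.2 h, norm_neg, norm_u]
  · intro h
    refine ⟨Complex.arg x, ?_⟩
    rw [g]; congr 1
    apply Complex.ext
    · simp only [u]
      rw [Complex.cos_arg (by intro h0; rw [h0, norm_zero] at h; exact zero_ne_one h), h, div_one]
    · simp only [u]
      rw [Complex.sin_arg, h, div_one]

lemma convex_D {γ : ℝ → Cone} {a : ℝ} (ha : 0 ≤ a) (hγ : Short γ a) (h0 : γ 0 ∈ D)
    (h1 : γ a ∈ D) {t : ℝ} (ht : t ∈ Icc 0 a) : γ t ∈ D := by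
  rcases eq_or_lt_of_le ha with h | h
  · have : t = 0 := le_antisymm (by rw [h]; exact ht.2) ht.1
    rwa [this]
  obtain ⟨x, hx⟩ := mk_surj (γ 0)
  obtain ⟨v, nv, hv⟩ := lift_path h hγ hx
  rw [← hx, mem_D] at h0
  rw [hv a ⟨ha, le_rfl⟩, mem_D] at h1
  rw [hv t ht, mem_D]
  have e : x + t • v = (1 - t / a) • x + (t / a) • (x + a • v) := by
    rw [smul_add, smul_smul, div_mul_cancel₀ _ h.ne', sub_smul, one_smul]; ring
  rw [e]
  have k1 : 0 ≤ t / a := div_nonneg ht.1 ha
  have k2 : t / a ≤ 1 := (div_le_one h).2 ht.2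
  refine (norm_add_le _ _).trans ?_
  rw [norm_smul, norm_smul, Real.norm_eq_abs, Real.norm_eq_abs, abs_of_nonneg k1,
    abs_of_nonneg (by linarith)]
  nlinarith [norm_nonneg x, norm_nonneg (x + a • v)]

/-! ### length -/

lemma var_le {s t : ℝ} (hst : s ≤ t) : eVariationOn g (Icc s t) ≤ ENNReal.ofReal (t - s) := by
  have hl : LipschitzOnWith 1 g univ := by
    refine LipschitzOnWith.of_dist_le_mul fun x _ y _ => ?_
    rw [NNReal.coe_one, one_mul, Real.dist_eq]; exact dist_g_le x y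
  have h1 := hl.comp_eVariationOn_le (g := id) (s := Icc s t) (mapsTo_univ _ _)
  rw [ENNReal.coe_one, one_mul, Function.comp_id] at h1
  refine h1.trans ?_
  have h2 := ((monotone_id.monotoneOn (Icc s t)).eVariationOn_eq (left_mem_Icc.2 hst)
    (right_mem_Icc.2 hst)).le
  rwa [inter_self] at h2

lemma le_var {s t : ℝ} (hst : s ≤ t) : ENNReal.ofReal (t - s) ≤ eVariationOn g (Icc s t) := by
  rcases eq_or_lt_of_le hst with h | h
  · rw [h, sub_self, ENNReal.ofReal_zero]; exact zero_le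
  have hpos : 0 < t - s := by linarith
  have key : ∀ n : ℕ, t - s ≤ n → 1 ≤ n →
      ENNReal.ofReal ((t - s) * (1 - ((t - s) / (2 * n)) ^ 2 / 4)) ≤ eVariationOn g (Icc s t) := by
    intro n hn hn1
    have hn0 : (0 : ℝ) < n := by exact_mod_cast hn1
    set h' := (t - s) / n with hh
    have hh0 : 0 < h' := by positivity
    have hh1 : h' ≤ 1 := (div_le_one hn0).2 hn
    have h2 := eVariationOn.sum_le_of_monotoneOn_Iic (f := g) (s := Icc s t) (n := n)
      (u := fun i : ℕ => s + i * h') (fun i _ j _ hij => by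
        have : (i : ℝ) ≤ j := by exact_mod_cast hij
        simp only; nlinarith) (fun i hi => by
        have : (i : ℝ) ≤ n := by exact_mod_cast hi
        constructor
        · have : 0 ≤ (i : ℝ) * h' := by positivity
          linarith
        · have : (i : ℝ) * h' ≤ n * h' := by gcongr
          have e : n * h' = t - s := by rw [hh]; field_simp
          linarith)
    refine le_trans ?_ h2
    have h3 : ∀ i ∈ Finset.range n, edist (g (s + ((i + 1 : ℕ) : ℝ) * h')) (g (s + (i : ℝ) * h'))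
        = ENNReal.ofReal (2 * Real.sin (h' / 2)) := by
      intro i _
      rw [edist_dist, dist_g]
      · congr 1
        have e : (s + (i : ℝ) * h' - (s + ((i + 1 : ℕ) : ℝ) * h')) / 2 = -(h' / 2) := by
          push_cast; ring
        rw [e, Real.sin_neg, abs_neg, abs_of_nonneg]
        exact Real.sin_nonneg_of_nonneg_of_le_pi (by positivity)
          (by linarith [Real.pi_gt_three])
      · have e : (s + (i : ℝ) * h' - (s + ((i + 1 : ℕ) : ℝ) * h')) = -h' := by
          push_cast; ring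
        rw [e, abs_neg, abs_of_pos hh0]; exact hh1
    rw [Finset.sum_congr rfl h3, Finset.sum_const, Finset.card_range, nsmul_eq_mul,
      ← ENNReal.ofReal_natCast, ← ENNReal.ofReal_mul (by positivity)]
    refine ENNReal.ofReal_le_ofReal ?_
    have h4 : h' / 2 - (h' / 2) ^ 3 / 4 < Real.sin (h' / 2) := by
      have h5 := Real.sin_gt_sub_cube (x := h' / 2) (by positivity)
      have h6 : 0 < (h' / 2) ^ 3 := by positivity
      linarith
    have e1 : (t - s) / (2 * n) = h' / 2 := by rw [hh]; field_simp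
    have e2 : t - s = n * h' := by rw [hh]; field_simp
    rw [e1]
    calc (t - s) * (1 - (h' / 2) ^ 2 / 4) = n * (2 * (h' / 2 - (h' / 2) ^ 3 / 4)) := by
          rw [e2]; ring
      _ ≤ n * (2 * Real.sin (h' / 2)) := by gcongr
  have lim : Tendsto (fun n : ℕ => (t - s) * (1 - ((t - s) / (2 * n)) ^ 2 / 4)) atTop
      (𝓝 (t - s)) := by
    have h1 : Tendsto (fun n : ℕ => (t - s) / (2 * (n : ℝ))) atTop (𝓝 0) :=
      Tendsto.const_div_atTop (tendsto_natCast_atTop_atTop.const_mul_atTop two_pos) _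
    have h2 := (((h1.pow 2).div_const 4).const_sub 1).const_mul (t - s)
    simpa using h2
  refine le_of_tendsto (ENNReal.tendsto_ofReal lim) ?_
  obtain ⟨n0, hn0⟩ := exists_nat_ge (t - s)
  filter_upwards [eventually_ge_atTop (max n0 1)] with n hn
  refine key n (hn0.trans ?_) (le_trans (le_max_right _ _) hn)
  exact_mod_cast le_trans (le_max_left _ _) hn

lemma var_eq {s t : ℝ} (hst : s ≤ t) : eVariationOn g (Icc s t) = ENNReal.ofReal (t - s) :=
  le_antisymm (var_le hst) (le_var hst)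

/-! ### swerve -/

lemma dir_eq {s r : ℝ} (hsr : r ≠ s) (h : |s - r| ≤ 1) {γ : ℝ → Cone}
    (hγ0 : γ 0 = g s) (hγ1 : γ (dist (g s) (g r)) = g r) (hγ : Short γ (dist (g s) (g r))) :
    0 < dist (g s) (g r) ∧ ∃ v : ℂ, ‖v‖ = 1 ∧
      (∀ t ∈ Icc 0 (dist (g s) (g r)), γ t = mk (u s + t • v)) ∧
      dist (g s) (g r) • v = u r - u s := by
  have hd : dist (g s) (g r) = 2 * |Real.sin ((s - r) / 2)| := by rw [dist_comm, dist_g h]
  obtain ⟨h1, h2⟩ := abs_le.1 h
  have h3 : |Real.sin ((s - r) / 2)| ≤ 1 / 2 := by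
    refine (Real.abs_sin_le_abs).trans ?_
    rw [abs_le]; constructor <;> linarith
  have h4 : 1 / 2 < Real.cos ((s - r) / 2) := by
    have := Real.one_sub_sq_div_two_le_cos (x := (s - r) / 2)
    nlinarith
  have hpos : 0 < dist (g s) (g r) := by
    rw [hd]
    have : Real.sin ((s - r) / 2) ≠ 0 := by
      intro h0
      have h5 := (Real.sin_eq_zero_iff_of_lt_of_lt (by linarith [Real.pi_gt_three])
        (by linarith [Real.pi_gt_three])).1 h0
      exact hsr (by linarith)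
    have := abs_pos.2 this
    linarith
  obtain ⟨v, nv, hv⟩ := lift_path hpos hγ (x := u s) (by rw [hγ0]; rfl)
  refine ⟨hpos, v, nv, hv, ?_⟩
  have h5 := hv _ ⟨hpos.le, le_rfl⟩
  rw [hγ1] at h5
  rcases mk_eq.1 h5 with h6 | h6
  · rw [h6]; ring
  · exfalso
    have h7 : dist (g s) (g r) • v = -(u r + u s) := by
      have h8 : u s + dist (g s) (g r) • v = -u r := by rw [h6, neg_neg]
      have h9 : dist (g s) (g r) • v = (u s + dist (g s) (g r) • v) - u s := by ring
      rw [h9, h8]; ring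
    have h8 : dist (g s) (g r) = ‖u r + u s‖ := by
      rw [← norm_neg, ← h7, norm_smul, nv, mul_one, Real.norm_eq_abs, abs_of_pos hpos]
    rw [hd, norm_u_add, abs_of_pos (by linarith : 0 < Real.cos ((s - r) / 2))] at h8
    linarith

lemma angle_eq {r s t : ℝ} (hrs : r < s) (hst : s < t) (h1 : s - r ≤ 1) (h2 : t - s ≤ 1)
    {γ η : ℝ → Cone} (hγ0 : γ 0 = g s) (hη0 : η 0 = g s) (hγ1 : γ (dist (g s) (g r)) = g r)
    (hη1 : η (dist (g s) (g t)) = g t) (hγ : Short γ (dist (g s) (g r)))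
    (hη : Short η (dist (g s) (g t))) {α : ℝ} (hα : HasAng γ η α) :
    Real.pi - α = (t - r) / 2 := by
  obtain ⟨p1, v, nv, hv, ev⟩ := dir_eq hrs.ne (by rw [abs_of_pos (by linarith)]; exact h1)
    hγ0 hγ1 hγ
  obtain ⟨p2, w, nw, hw, ew⟩ := dir_eq hst.ne' (by rw [abs_of_neg (by linarith)]; linarith)
    hη0 hη1 hη
  have hv' : v = nn ((r + s) / 2) := by
    have e0 : dist (g s) (g r) = 2 * Real.sin ((s - r) / 2) := by
      rw [dist_comm, dist_g (by rw [abs_of_pos (by linarith)]; exact h1), abs_of_nonneg]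
      exact Real.sin_nonneg_of_nonneg_of_le_pi (by linarith) (by linarith [Real.pi_gt_three])
    rw [u_sub, ← e0] at ev
    exact smul_right_injective ℂ p1.ne' ev
  have hw' : w = -nn ((t + s) / 2) := by
    have e0 : dist (g s) (g t) = 2 * Real.sin ((t - s) / 2) := by
      rw [dist_g (by rw [abs_of_pos (by linarith)]; exact h2), abs_of_nonneg]
      exact Real.sin_nonneg_of_nonneg_of_le_pi (by linarith) (by linarith [Real.pi_gt_three])
    have e1 : 2 * Real.sin ((s - t) / 2) = -dist (g s) (g t) := by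
      rw [e0, show (s - t) / 2 = -((t - s) / 2) by ring, Real.sin_neg]; ring
    rw [u_sub, e1, neg_smul, ← smul_neg] at ew
    exact smul_right_injective ℂ p2.ne' ew
  have hus : u s ≠ 0 := by rw [← norm_pos_iff, norm_u]; exact one_pos
  have h3 := hα.unique (ang_ne hus nv nw p1 p2 hv hw)
  have h4 : ⟪v, w⟫_ℝ = -Real.cos ((t - r) / 2) := by
    rw [hv', hw', inner_neg_right, nn, nn, inner_mk]
    have : (t - r) / 2 = (t + s) / 2 - (r + s) / 2 := by ring
    rw [this, Real.cos_sub]; ring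
  rw [h3, h4, Real.arccos_neg, Real.arccos_cos (by linarith) (by linarith [Real.pi_gt_three])]
  ring

/-- `α` is an angle at `q` between shortest paths to `p` and `r` -/
def AngAt (p q r : Cone) (α : ℝ) : Prop :=
  ∃ γ η : ℝ → Cone, γ 0 = q ∧ η 0 = q ∧ γ (dist q p) = p ∧ η (dist q r) = r ∧
    Short γ (dist q p) ∧ Short η (dist q r) ∧ HasAng γ η α

lemma swerve {s t : ℝ} {ε : ℝ} (hε : 0 < ε) : ∃ δ > 0, ∀ (N : ℕ) (τ α : ℕ → ℝ),
    τ 0 = s → τ (N + 1) = t → (∀ i ≤ N, τ i < τ (i + 1) ∧ τ (i + 1) - τ i < δ) →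
    (∀ i < N, AngAt (g (τ i)) (g (τ (i + 1))) (g (τ (i + 2))) (α i)) →
    |∑ i ∈ Finset.range N, (Real.pi - α i) - (t - s)| < ε := by
  refine ⟨min 1 ε, lt_min one_pos hε, fun N τ α h0 h1 hm hα => ?_⟩
  have hd1 : ∀ i ≤ N, τ (i + 1) - τ i < 1 := fun i hi => (hm i hi).2.trans_le (min_le_left _ _)
  have hd2 : ∀ i ≤ N, τ (i + 1) - τ i < ε := fun i hi => (hm i hi).2.trans_le (min_le_right _ _)
  have h2 : ∑ i ∈ Finset.range N, (Real.pi - α i)
      = ∑ i ∈ Finset.range N, ((τ (i + 2) - τ (i + 1)) / 2 + (τ (i + 1) - τ i) / 2) := by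
    refine Finset.sum_congr rfl fun i hi => ?_
    have hi' : i < N := Finset.mem_range.1 hi
    obtain ⟨γ, η, a1, a2, a3, a4, a5, a6, a7⟩ := hα i hi'
    rw [angle_eq (hm i hi'.le).1 (hm (i + 1) hi').1 (hd1 i hi'.le).le (hd1 (i + 1) hi').le
      a1 a2 a3 a4 a5 a6 a7]
    ring
  have h3 : ∀ n : ℕ, ∑ i ∈ Finset.range n, ((τ (i + 2) - τ (i + 1)) / 2 + (τ (i + 1) - τ i) / 2)
      = (τ (n + 1) - τ 1) / 2 + (τ n - τ 0) / 2 := by
    intro n
    induction n with
    | zero => simp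
    | succ n ih => rw [Finset.sum_range_succ, ih]; ring
  rw [h2, h3, ← h1, ← h0]
  have b1 := hm 0 (Nat.zero_le _)
  have b2 := hm N le_rfl
  have c1 := hd2 0 (Nat.zero_le _)
  have c2 := hd2 N le_rfl
  rw [zero_add] at b1 c1
  rw [abs_lt]
  constructor <;> linarith [b1.1, b2.1]

/-! ### circumscribed radius -/

lemma far (x : ℂ) : ∃ y : ℂ, ‖y‖ = 1 ∧ 1 ≤ dist (mk x) (mk y) := by
  by_cases h0 : x = 0
  · refine ⟨1, norm_one, ?_⟩
    rw [h0, dist_zero, norm_one]
  · have hn : 0 < ‖x‖ := norm_pos_iff.2 h0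
    set y : ℂ := Complex.I * ((1 / ‖x‖ : ℝ) • x) with hy
    have hy1 : ‖y‖ = 1 := by
      rw [hy, norm_mul, Complex.norm_I, one_mul, norm_smul, Real.norm_eq_abs,
        abs_of_pos (by positivity)]
      field_simp
    have hxy : ⟪x, y⟫_ℝ = 0 := by
      have e : y = (1 / ‖x‖ : ℝ) • (Complex.I * x) := by rw [hy, mul_smul_comm]
      rw [e, inner_smul_right]
      have : ⟪x, Complex.I * x⟫_ℝ = 0 := by
        rw [show x = (⟨x.re, x.im⟩ : ℂ) from rfl]
        have : Complex.I * (⟨x.re, x.im⟩ : ℂ) = ⟨-x.im, x.re⟩ := by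
          apply Complex.ext <;> simp
        rw [this, inner_mk]; ring
      rw [this, mul_zero]
    refine ⟨y, hy1, ?_⟩
    rw [dist_mk]
    refine le_min ?_ ?_
    · refine le_of_sq_le_sq ?_ (norm_nonneg _)
      rw [norm_sub_sq_real, hxy, hy1]
      nlinarith [sq_nonneg ‖x‖]
    · refine le_of_sq_le_sq ?_ (norm_nonneg _)
      rw [norm_add_sq_real, hxy, hy1]
      nlinarith [sq_nonneg ‖x‖]

lemma circum : (⨅ p : D, ⨆ q : frontier D, dist (p : Cone) q) = 1 := by
  have hf : (mk 1) ∈ frontier D := mem_frontier.2 norm_one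
  have : Nonempty (frontier D) := ⟨⟨mk 1, hf⟩⟩
  have h0 : mk 0 ∈ D := mem_D.2 (by rw [norm_zero]; exact zero_le_one)
  have : Nonempty D := ⟨⟨mk 0, h0⟩⟩
  have hD : frontier D ⊆ D := Metric.isClosed_closedBall.frontier_subset
  have bdd : ∀ p : D, BddAbove (range fun q : frontier D => dist (p : Cone) q) := by
    intro p
    refine ⟨2, ?_⟩
    rintro _ ⟨q, rfl⟩
    have h1 : dist (p : Cone) (mk 0) ≤ 1 := p.2
    have h2 : dist (q : Cone) (mk 0) ≤ 1 := hD q.2
    have h3 := dist_triangle (p : Cone) (mk 0) q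
    rw [dist_comm (mk 0)] at h3
    simp only
    linarith
  apply le_antisymm
  · refine ciInf_le_of_le ⟨0, ?_⟩ ⟨mk 0, h0⟩ ?_
    · rintro _ ⟨p, rfl⟩
      exact Real.iSup_nonneg fun _ => dist_nonneg
    · refine ciSup_le fun q => ?_
      obtain ⟨⟨q, hq⟩, rfl⟩ : ∃ q' : frontier D, q' = q := ⟨q, rfl⟩
      obtain ⟨y, rfl⟩ := mk_surj q
      rw [dist_zero]
      exact (mem_frontier.1 hq).le
  · refine le_ciInf fun p => ?_
    obtain ⟨⟨p, hp⟩, rfl⟩ : ∃ p' : D, p' = p := ⟨p, rfl⟩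
    obtain ⟨x, rfl⟩ := mk_surj p
    obtain ⟨y, hy1, hy2⟩ := far x
    exact le_ciSup_of_le (bdd ⟨mk x, hp⟩) ⟨mk y, mem_frontier.2 hy1⟩ hy2

end Pool.Agent.X187.CN
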